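import Pool.Agent.Y451.FM.Stm

set_option autoImplicit false

/-!
# FM-LIM: iteration, Borel–Cantelli and passage to the limit
-/

open MeasureTheory Filter
open scoped ENNReal

noncomputable section

namespace Pool.Agent.Y383.FM

open Pool.Agent.Y451.FM

/-! ## the weights -/

/-- a finite measure on `ℤ` -/
def kap : Measure ℤ :=
  Measure.sum (fun m : ℤ => ((2 : ℝ≥0∞)⁻¹ ^ m.natAbs) • Measure.dirac m)

theorem kap_singleton (m : ℤ) : kap {m} = (2 : ℝ≥0∞)⁻¹ ^ m.natAbs := by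
  unfold kap
  rw [Measure.sum_apply _ (measurableSet_singleton m)]
  rw [tsum_eq_single m]
  · simp
  · intro b hb
    simp [Measure.dirac_apply' _ (measurableSet_singleton m), hb]

theorem sum_ne_top : ∑' m : ℤ, (2 : ℝ≥0∞)⁻¹ ^ m.natAbs ≠ ∞ := by
  have h : Summable (fun m : ℤ => ((2 : ℝ)⁻¹) ^ m.natAbs) := by
    apply Summable.of_nat_of_neg
    · simpa using summable_geometric_of_lt_one (r := (2 : ℝ)⁻¹) (by norm_num) (by norm_num)
    · simpa using summable_geometric_of_lt_one (r := (2 : ℝ)⁻¹) (by norm_num) (by norm_num)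
  have h2 := h.tsum_ofReal_ne_top
  convert h2 using 3 with m
  rw [ENNReal.ofReal_pow (by norm_num), ENNReal.ofReal_inv_of_pos (by norm_num)]
  simp

instance : IsFiniteMeasure kap := by
  constructor
  unfold kap
  rw [Measure.sum_apply _ MeasurableSet.univ]
  simp only [Measure.smul_apply, measure_univ, smul_eq_mul, mul_one]
  exact lt_top_iff_ne_top.2 sum_ne_top

/-- the weight of an element of the group -/
def Wt {n : ℕ} (g : Gp n) : ℝ≥0∞ := (Measure.pi (fun _ : Fin n => kap)) {g}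

theorem Wt_eq {n : ℕ} (g : Gp n) : Wt g = ∏ i, (2 : ℝ≥0∞)⁻¹ ^ (g i).natAbs := by
  unfold Wt
  rw [Measure.pi_singleton]
  exact Finset.prod_congr rfl (fun i _ => kap_singleton _)

theorem Wt_tsum {n : ℕ} : ∑' g : Gp n, Wt g ≠ ∞ := by
  have h := Measure.tsum_indicator_apply_singleton (Measure.pi (fun _ : Fin n => kap)) Set.univ
    MeasurableSet.univ
  simp only [Set.indicator_univ] at h
  unfold Wt
  rw [h]
  exact measure_ne_top _ _

theorem Wt_zero {n : ℕ} : Wt (0 : Gp n) = 1 := by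
  rw [Wt_eq]
  simp

/-- the constant of quasi-invariance -/
def Cq {n : ℕ} (u : Gp n) : ℝ≥0∞ := ∏ i, (2 : ℝ≥0∞) ^ (u i).natAbs

theorem Cq_ne_top {n : ℕ} (u : Gp n) : Cq u ≠ ∞ := by
  unfold Cq
  exact ENNReal.prod_ne_top (fun i _ => ENNReal.pow_ne_top (by simp))

theorem Wt_le {n : ℕ} (u g : Gp n) : Wt g ≤ Cq u * Wt (u + g) := by
  rw [Wt_eq, Wt_eq, Cq, ← Finset.prod_mul_distrib]
  refine Finset.prod_le_prod' (fun i _ => ?_)
  have h1 : (u i + g i).natAbs ≤ (u i).natAbs + (g i).natAbs := Int.natAbs_add_le _ _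
  have h2 : ((2 : ℝ≥0∞)⁻¹) ^ ((u i).natAbs + (g i).natAbs) ≤ (2 : ℝ≥0∞)⁻¹ ^ (u i + g i).natAbs :=
    pow_le_pow_right_of_le_one' (by simp) h1
  have h3 : (2 : ℝ≥0∞) ^ (u i).natAbs * (2 : ℝ≥0∞)⁻¹ ^ (u i).natAbs = 1 := by
    rw [← mul_pow, ENNReal.mul_inv_cancel (by simp) (by simp), one_pow]
  calc (2 : ℝ≥0∞)⁻¹ ^ (g i).natAbs
      = ((2 : ℝ≥0∞) ^ (u i).natAbs * (2 : ℝ≥0∞)⁻¹ ^ (u i).natAbs) * (2 : ℝ≥0∞)⁻¹ ^ (g i).natAbs := by
        rw [h3, one_mul]
    _ = (2 : ℝ≥0∞) ^ (u i).natAbs * ((2 : ℝ≥0∞)⁻¹ ^ ((u i).natAbs + (g i).natAbs)) := by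
        rw [pow_add, mul_assoc]
    _ ≤ (2 : ℝ≥0∞) ^ (u i).natAbs * ((2 : ℝ≥0∞)⁻¹ ^ ((u + g) i).natAbs) := by
        simp only [Pi.add_apply]
        gcongr

/-! ## the quasi-invariant measure -/

variable {n : ℕ} {X : Type} [MeasurableSpace X]

/-- the quasi-invariant measure -/
def nu (a : Gp n → X → X) (μ : Measure X) : Measure X :=
  Measure.sum (fun g : Gp n => Wt g • μ.map (a g))

theorem nu_apply {a : Gp n → X → X} (ha : Act n X a) (μ : Measure X) {E : Set X}
    (hE : MeasurableSet E) : nu a μ E = ∑' g : Gp n, Wt g * μ {x | a g x ∈ E} := by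
  unfold nu
  rw [Measure.sum_apply _ hE]
  refine tsum_congr (fun g => ?_)
  rw [Measure.smul_apply, smul_eq_mul, Measure.map_apply (ha.meas g) hE]
  rfl

theorem nu_finite {a : Gp n → X → X} (ha : Act n X a) (μ : Measure X) [IsProbabilityMeasure μ] :
    IsFiniteMeasure (nu a μ) := by
  constructor
  rw [nu_apply ha μ MeasurableSet.univ]
  simp only [Set.mem_univ, Set.setOf_true, measure_univ, mul_one]
  exact lt_top_iff_ne_top.2 Wt_tsum

theorem ac_nu {a : Gp n → X → X} (ha : Act n X a) (μ : Measure X) : μ ≪ nu a μ := by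
  refine Measure.AbsolutelyContinuous.mk (fun E hE h0 => ?_)
  rw [nu_apply ha μ hE, ENNReal.tsum_eq_zero] at h0
  have h := h0 0
  rw [Wt_zero, one_mul] at h
  simpa [ha.zero] using h

theorem map_nu_le {a : Gp n → X → X} (ha : Act n X a) (μ : Measure X) (u : Gp n) :
    (nu a μ).map (a u) ≤ Cq u • nu a μ := by
  refine Measure.le_intro (fun E hE _ => ?_)
  rw [Measure.map_apply (ha.meas u) hE, nu_apply ha μ (ha.meas u hE), Measure.smul_apply,
    nu_apply ha μ hE, smul_eq_mul, ← ENNReal.tsum_mul_left]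
  have h1 : ∑' g : Gp n, Cq u * (Wt g * μ {x | a g x ∈ E}) =
      ∑' g : Gp n, Cq u * (Wt (u + g) * μ {x | a (u + g) x ∈ E}) := by
    rw [← (Equiv.addLeft u).tsum_eq]
    rfl
  rw [h1]
  refine ENNReal.tsum_le_tsum (fun g => ?_)
  have h2 : {x | a g x ∈ a u ⁻¹' E} = {x | a (u + g) x ∈ E} := by
    ext x
    simp only [Set.mem_preimage, Set.mem_setOf_eq, ha.add]
  rw [h2, ← mul_assoc]
  gcongr
  exact Wt_le u g

theorem qmp {a : Gp n → X → X} (ha : Act n X a) (μ : Measure X) (u : Gp n) :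
    Measure.QuasiMeasurePreserving (a u) (nu a μ) (nu a μ) := by
  refine ⟨ha.meas u, ?_⟩
  refine Measure.AbsolutelyContinuous.trans (Measure.absolutelyContinuous_of_le (map_nu_le ha μ u)) ?_
  exact Measure.smul_absolutelyContinuous

theorem lint_le {a : Gp n → X → X} (ha : Act n X a) (μ : Measure X) (u : Gp n) {f : X → ℝ≥0∞}
    (hf : Measurable f) : ∫⁻ x, f (a u x) ∂(nu a μ) ≤ Cq u * ∫⁻ x, f x ∂(nu a μ) := by
  rw [← lintegral_map hf (ha.meas u), ← smul_eq_mul, ← lintegral_smul_measure]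
  exact lintegral_mono' (map_nu_le ha μ u) le_rfl

/-! ## the error function -/

theorem meas_sg {k : ℕ} {F : Om n → Fin k} (hF : Measurable F) (hP : S_PRD) :
    Measurable (sg F) := by
  refine measurable_pi_lambda _ (fun v => ?_)
  exact hF.comp (hP.2.1 n v).measurable

theorem meas_ev {k t : ℕ} {F : Om n → Fin k} (hF : Measurable F) (hP : S_PRD) (r : Rule n k t) :
    Measurable (fun b => ev r (sg F b)) := by
  unfold ev
  have h1 : Measurable (fun b : Om n => (fun v : {v : Gp n // v ∈ B n t} => sg F b v.1)) := by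
    refine measurable_pi_lambda _ (fun v => ?_)
    exact (measurable_pi_apply v.1).comp (meas_sg hF hP)
  exact (measurable_of_countable r).comp h1

variable {k ρ : ℕ} {Pr : (Gp n → Fin k) → Prop} {a : Gp n → X → X}

theorem meas_err (S : Stage n k Pr X a) (F : Om n → Fin k) :
    Measurable (fun x => S.err F x) := by
  have h : (fun x => S.err F x) = (fun p : Rule n k S.t × Fin k =>
      (PP n).real {b | ev p.1 (sg F b) ≠ p.2}) ∘ (fun x => (S.R x, S.ψ x)) := rfl
  rw [h]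
  exact (measurable_of_countable _).comp (S.mR.prodMk S.mψ)

theorem err_nonneg (S : Stage n k Pr X a) (F : Om n → Fin k) (x : X) : 0 ≤ S.err F x :=
  measureReal_nonneg

theorem err_le_one (S : Stage n k Pr X a) (F : Om n → Fin k) (x : X) : S.err F x ≤ 1 :=
  measureReal_le_one

theorem err_int (S : Stage n k Pr X a) (F : Om n → Fin k) (ν : Measure X) [IsFiniteMeasure ν] :
    Integrable (fun x => S.err F x) ν := by
  refine (integrable_const (1 : ℝ)).mono' (meas_err S F).aestronglyMeasurable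
    (Eventually.of_forall (fun x => ?_))
  rw [Real.norm_eq_abs, abs_of_nonneg (err_nonneg S F x)]
  exact err_le_one S F x

theorem sh_sg (F : Om n → Fin k) (u : Gp n) (b : Om n) : sh u (sg F b) = sg F (sh u b) := by
  funext h
  unfold sg
  show F (sh (h + u) b) = F (sh h (sh u b))
  congr 1
  funext h'
  show b (h' + (h + u)) = b (h' + h + u)
  rw [add_assoc]

theorem err_shift (hP : S_PRD) {F : Om n → Fin k} (hF : Measurable F) (S : Stage n k Pr X a)
    (x : X) (u : Gp n) :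
    (PP n).real {b | ev (S.R (a u x)) (sh u (sg F b)) ≠ S.ψ (a u x)} = S.err F (a u x) := by
  have hm : MeasurableSet {b : Om n | ev (S.R (a u x)) (sg F b) ≠ S.ψ (a u x)} := by
    have h1 := meas_ev hF hP (S.R (a u x))
    exact (h1 (measurableSet_singleton (S.ψ (a u x)))).compl
  have h := (hP.2.1 n u).measureReal_preimage hm.nullMeasurableSet
  rw [Stage.err, ← h]
  congr 1
  ext b
  simp only [Set.mem_setOf_eq, Set.mem_preimage, sh_sg]

/-- the key pointwise estimate -/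
theorem bad_le (hP : S_PRD) (hL : LocP n k ρ Pr) {F : Om n → Fin k} (hF : Measurable F)
    (hs : ∀ᵐ b ∂PP n, Sol Pr (sg F b)) (S : Stage n k Pr X a) (x : X)
    (hx : ¬ Pr (fun v => S.ψ (a v x))) : 1 ≤ ∑ u ∈ B n ρ, S.err F (a u x) := by
  have h1 : ∀ᵐ b ∂PP n, b ∈ ⋃ u ∈ B n ρ,
      {b : Om n | ev (S.R (a u x)) (sh u (sg F b)) ≠ S.ψ (a u x)} := by
    filter_upwards [hs] with b hb
    by_contra hcon
    simp only [Set.mem_iUnion, Set.mem_setOf_eq, not_exists, not_not] at hcon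
    have h2 := S.val x (sg F b) hb 0
    apply hx
    refine hL _ _ (fun v hv => ?_) h2
    simp only [sh, add_zero]
    exact hcon v hv
  have h3 : (PP n) (⋃ u ∈ B n ρ,
      {b : Om n | ev (S.R (a u x)) (sh u (sg F b)) ≠ S.ψ (a u x)}) = 1 := by
    have h5 := measure_congr (eventuallyEq_univ.2 h1)
    rw [measure_univ] at h5
    exact h5
  have h4 : (PP n).real (⋃ u ∈ B n ρ,
      {b : Om n | ev (S.R (a u x)) (sh u (sg F b)) ≠ S.ψ (a u x)}) = 1 := by
    rw [Measure.real, h3, ENNReal.toReal_one]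
  rw [← h4]
  refine (measureReal_biUnion_finset_le _ _).trans (le_of_eq ?_)
  exact Finset.sum_congr rfl (fun u _ => err_shift hP hF S x u)

/-- the bad set has small measure -/
theorem bad_measure (hP : S_PRD) (hL : LocP n k ρ Pr) {F : Om n → Fin k} (hF : Measurable F)
    (hs : ∀ᵐ b ∂PP n, Sol Pr (sg F b)) (ha : Act n X a) (μ : Measure X) [IsProbabilityMeasure μ]
    (S : Stage n k Pr X a) :
    nu a μ {x | ¬ Pr (fun v => S.ψ (a v x))} ≤
      (∑ u ∈ B n ρ, Cq u) * ENNReal.ofReal (∫ x, S.err F x ∂(nu a μ)) := by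
  haveI := nu_finite ha μ
  have hm : ∀ u : Gp n, Measurable (fun x => ENNReal.ofReal (S.err F (a u x))) := fun u =>
    ((meas_err S F).comp (ha.meas u)).ennreal_ofReal
  calc nu a μ {x | ¬ Pr (fun v => S.ψ (a v x))}
      ≤ nu a μ {x | 1 ≤ ∑ u ∈ B n ρ, ENNReal.ofReal (S.err F (a u x))} := by
        refine measure_mono (fun x hx => ?_)
        have h1 := bad_le hP hL hF hs S x hx
        show 1 ≤ ∑ u ∈ B n ρ, ENNReal.ofReal (S.err F (a u x))
        rw [← ENNReal.ofReal_sum_of_nonneg (fun u _ => err_nonneg S F _)]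
        rw [← ENNReal.ofReal_one]
        exact ENNReal.ofReal_le_ofReal h1
    _ ≤ ∫⁻ x, ∑ u ∈ B n ρ, ENNReal.ofReal (S.err F (a u x)) ∂(nu a μ) := by
        have h := mul_meas_ge_le_lintegral (μ := nu a μ)
          (f := fun x => ∑ u ∈ B n ρ, ENNReal.ofReal (S.err F (a u x)))
          (Finset.measurable_fun_sum _ (fun u _ => hm u)) 1
        rwa [one_mul] at h
    _ = ∑ u ∈ B n ρ, ∫⁻ x, ENNReal.ofReal (S.err F (a u x)) ∂(nu a μ) :=
        lintegral_finset_sum _ (fun u _ => hm u)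
    _ ≤ ∑ u ∈ B n ρ, Cq u * ∫⁻ x, ENNReal.ofReal (S.err F x) ∂(nu a μ) :=
        Finset.sum_le_sum (fun u _ => lint_le ha μ u (meas_err S F).ennreal_ofReal)
    _ = (∑ u ∈ B n ρ, Cq u) * ENNReal.ofReal (∫ x, S.err F x ∂(nu a μ)) := by
        rw [Finset.sum_mul, ofReal_integral_eq_lintegral_ofReal (err_int S F _)
          (Eventually.of_forall (fun x => err_nonneg S F x))]

/-! ## the sequence of stages -/

/-- the initial stage -/
def init (d : Fin k) (Pr : (Gp n → Fin k) → Prop) (a : Gp n → X → X) : Stage n k Pr X a where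
  t := 0
  R := fun _ => fun r => r ⟨0, mem_B.2 (fun i => by simp)⟩
  ψ := fun _ => d
  mR := measurable_const
  mψ := measurable_const
  val := by
    intro x w hw
    have : (fun u => ev (n := n) (k := k) (t := 0) (fun r => r ⟨0, mem_B.2 (fun i => by simp)⟩)
        (sh u w)) = w := by
      funext u
      show w (0 + u) = w u
      rw [zero_add]
    rw [this]
    exact hw

/-- the sequence of stages with its estimates -/
theorem exists_seq (hS : S_STEP) (hL : LocP n k ρ Pr) {F : Om n → Fin k} (hF : Measurable F)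
    (hs : ∀ᵐ b ∂PP n, Sol Pr (sg F b)) [StandardBorelSpace X] (ha : Act n X a)
    (ν : Measure X) [IsFiniteMeasure ν] :
    ∃ (S : ℕ → Stage n k Pr X a) (V θ γ : ℝ), 0 < V ∧ 0 < θ ∧ θ < 1 ∧ 0 < γ ∧
      (∀ j, ∫ x, (S j).err F x ∂ν ≤ θ ^ j * V) ∧
      ∀ j, ν.real {x | (S (j + 1)).ψ x ≠ (S j).ψ x} ≤ θ ^ j * (V / γ) := by
  obtain ⟨γ, hγdef⟩ : ∃ γ : ℝ, γ = gam n := ⟨_, rfl⟩
  have hγ0 : 0 < γ := by rw [hγdef, gam]; positivity
  have hγ1 : γ ≤ 1 / 2 := by
    rw [hγdef, gam]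
    have h1 : (1 : ℝ) ≤ 4 ^ n := one_le_pow₀ (by norm_num)
    apply one_div_le_one_div_of_le (by norm_num)
    linarith
  set V : ℝ := ν.real Set.univ + 1 with hV
  have hV0 : 0 < V := by
    have : 0 ≤ ν.real Set.univ := measureReal_nonneg
    linarith
  set θ : ℝ := 1 - γ / 2 with hθ
  have hθ0 : 0 < θ := by rw [hθ]; linarith
  have hθ1 : θ < 1 := by rw [hθ]; linarith
  have hst := fun (S : Stage n k Pr X a) (δ : ℝ) (hδ : 0 < δ) =>
    hS n k ρ Pr hL F hF hs X a ha ν S δ hδ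
  choose nx hnx using hst
  have hδ : ∀ j : ℕ, 0 < γ / 2 * (θ ^ j * V) := fun j => by positivity
  let S : ℕ → Stage n k Pr X a := fun j => Nat.rec (init (F (fun _ => 0)) Pr a)
    (fun j T => nx T (γ / 2 * (θ ^ j * V)) (hδ j)) j
  have hS1 : ∀ j, S (j + 1) = nx (S j) (γ / 2 * (θ ^ j * V)) (hδ j) := fun j => rfl
  have hstep : ∀ j, ∫ x, (S (j + 1)).err F x ∂ν + γ * ν.real {x | (S (j + 1)).ψ x ≠ (S j).ψ x} ≤
      (1 - γ) * ∫ x, (S j).err F x ∂ν + γ / 2 * (θ ^ j * V) := by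
    intro j
    have := hnx (S j) (γ / 2 * (θ ^ j * V)) (hδ j)
    rw [← hS1 j, ← hγdef] at this
    exact this
  have hE0 : ∀ j, 0 ≤ ∫ x, (S j).err F x ∂ν := fun j =>
    integral_nonneg (fun x => err_nonneg _ F x)
  have hE : ∀ j, ∫ x, (S j).err F x ∂ν ≤ θ ^ j * V := by
    intro j
    induction j with
    | zero =>
      rw [pow_zero, one_mul]
      have h1 : ∫ x, (S 0).err F x ∂ν ≤ ∫ _x, (1 : ℝ) ∂ν :=
        integral_mono (err_int _ F ν) (integrable_const _) (fun x => err_le_one _ F x)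
      rw [integral_const, smul_eq_mul, mul_one] at h1
      linarith
    | succ j ih =>
      have h1 := hstep j
      have h2 : 0 ≤ γ * ν.real {x | (S (j + 1)).ψ x ≠ (S j).ψ x} :=
        mul_nonneg hγ0.le measureReal_nonneg
      have h3 : (1 - γ) * ∫ x, (S j).err F x ∂ν ≤ (1 - γ) * (θ ^ j * V) :=
        mul_le_mul_of_nonneg_left ih (by linarith)
      have h4 : θ ^ (j + 1) * V = (1 - γ) * (θ ^ j * V) + γ / 2 * (θ ^ j * V) := by
        rw [pow_succ, hθ]; ring
      rw [h4]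
      linarith
  refine ⟨S, V, θ, γ, hV0, hθ0, hθ1, hγ0, hE, fun j => ?_⟩
  have h1 := hstep j
  have h2 := hE0 (j + 1)
  have h3 : (1 - γ) * ∫ x, (S j).err F x ∂ν ≤ (1 - γ) * (θ ^ j * V) :=
    mul_le_mul_of_nonneg_left (hE j) (by linarith)
  have h5 : 0 ≤ γ / 2 * (θ ^ j * V) := (hδ j).le
  have h4 : γ * ν.real {x | (S (j + 1)).ψ x ≠ (S j).ψ x} ≤ θ ^ j * V := by
    nlinarith
  rw [← mul_div_assoc, le_div_iff₀ hγ0]
  linarith

/-! ## passage to the limit -/

theorem done (hP : S_PRD) : S_LIM := by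
  intro hS n k ρ Pr hL F hF hs X _ _ a ha μ _
  haveI := nu_finite ha μ
  obtain ⟨S, V, θ, γ, hV, hθ0, hθ1, hγ, hE, hD⟩ := exists_seq hS hL hF hs ha (nu a μ)
  haveI : Nonempty (Fin k) := ⟨F (fun _ => 0)⟩
  -- Borel–Cantelli
  have hsum : (∑' j, nu a μ {x | (S (j + 1)).ψ x ≠ (S j).ψ x}) ≠ ∞ := by
    have h1 : Summable (fun j : ℕ => θ ^ j * (V / γ)) :=
      (summable_geometric_of_lt_one hθ0.le hθ1).mul_right _
    refine ne_top_of_le_ne_top h1.tsum_ofReal_ne_top (ENNReal.tsum_le_tsum (fun j => ?_))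
    rw [← ofReal_measureReal]
    exact ENNReal.ofReal_le_ofReal (hD j)
  have hBC := ae_eventually_notMem hsum
  have hconst : ∀ᵐ x ∂(nu a μ), ∃ c : Fin k, ∀ᶠ j in atTop, (S j).ψ x = c := by
    filter_upwards [hBC] with x hx
    obtain ⟨J, hJ⟩ := eventually_atTop.1 hx
    refine ⟨(S J).ψ x, eventually_atTop.2 ⟨J, fun j hj => ?_⟩⟩
    induction j, hj using Nat.le_induction with
    | base => rfl
    | succ j hj ih =>
      have h1 := hJ j hj
      rw [← ih]
      by_contra hcon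
      exact h1 hcon
  have hall : ∀ᵐ x ∂(nu a μ), ∀ u : Gp n, ∃ c : Fin k, ∀ᶠ j in atTop, (S j).ψ (a u x) = c :=
    ae_all_iff.2 (fun u => (qmp ha μ u).ae hconst)
  -- the limit
  obtain ⟨f, hf, hf2⟩ := exists_measurable_piecewise
    (t := fun c : Fin k => {x : X | ∀ᶠ j in atTop, (S j).ψ x = c})
    (fun c => by
      have h1 : ∀ j, MeasurableSet {x : X | (S j).ψ x = c} := fun j =>
        (S j).mψ (measurableSet_singleton c)
      have h2 : {x : X | ∀ᶠ j in atTop, (S j).ψ x = c} =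
          ⋃ J : ℕ, ⋂ j ∈ Set.Ici J, {x : X | (S j).ψ x = c} := by
        ext x
        simp [eventually_atTop]
      rw [h2]
      exact MeasurableSet.iUnion (fun J => MeasurableSet.biInter (Set.to_countable _)
        (fun j _ => h1 j)))
    (fun c => fun _ => c) (fun c => measurable_const)
    (fun c c' hcc => by
      intro x hx
      exfalso
      obtain ⟨j, h1, h2⟩ := (hx.1.and hx.2).exists
      exact hcc (h1.symm.trans h2))
  refine ⟨f, hf, ?_⟩
  refine (ac_nu ha μ).ae_le ?_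
  have hbad : ∀ j, nu a μ {x | ¬ Pr (fun v => (S j).ψ (a v x))} ≤
      (∑ u ∈ B n ρ, Cq u) * ENNReal.ofReal (θ ^ j * V) := fun j =>
    (bad_measure hP hL hF hs ha μ (S j)).trans (by gcongr; exact hE j)
  have hlim : Tendsto (fun j : ℕ => (∑ u ∈ B n ρ, Cq u) * ENNReal.ofReal (θ ^ j * V)) atTop
      (nhds 0) := by
    have h1 : Tendsto (fun j : ℕ => θ ^ j * V) atTop (nhds 0) := by
      simpa using (tendsto_pow_atTop_nhds_zero_of_lt_one hθ0.le hθ1).mul_const V
    have h2 := ENNReal.tendsto_ofReal h1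
    rw [ENNReal.ofReal_zero] at h2
    have h3 := ENNReal.Tendsto.const_mul (a := ∑ u ∈ B n ρ, Cq u) h2
      (Or.inr (ENNReal.sum_ne_top.2 (fun u _ => Cq_ne_top u)))
    simpa using h3
  have hnull : nu a μ (⋃ J : ℕ, ⋂ j ∈ Set.Ici J, {x | ¬ Pr (fun v => (S j).ψ (a v x))}) = 0 := by
    refine measure_iUnion_null (fun J => ?_)
    refine le_antisymm (ge_of_tendsto hlim (eventually_atTop.2 ⟨J, fun j hj => ?_⟩)) zero_le
    exact (measure_mono (Set.biInter_subset_of_mem (Set.mem_Ici.2 hj))).trans (hbad j)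
  have hnull2 : ∀ᵐ x ∂(nu a μ),
      x ∉ ⋃ J : ℕ, ⋂ j ∈ Set.Ici J, {x | ¬ Pr (fun v => (S j).ψ (a v x))} :=
    measure_eq_zero_iff_ae_notMem.1 hnull
  filter_upwards [hall, hnull2] with x hx hx2
  by_contra hcon
  apply hx2
  have h1 : ∀ᶠ j in atTop, ∀ v ∈ B n ρ, (S j).ψ (a v x) = f (a v x) := by
    rw [Finset.eventually_all]
    intro v _
    obtain ⟨c, hc⟩ := hx v
    have h2 : f (a v x) = c := hf2 c hc
    rw [h2]
    exact hc
  obtain ⟨J, hJ⟩ := eventually_atTop.1 h1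
  refine Set.mem_iUnion.2 ⟨J, Set.mem_iInter₂.2 (fun j hj => ?_)⟩
  intro h2
  exact hcon (hL _ _ (fun v hv => hJ j hj v hv) h2)

end Pool.Agent.Y383.FM

end
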